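import Pool.Agent.Helper65.HF.StN
import Pool.Agent.Helper45.GrFinal

/-!
# Project HF, module ABV: above the threshold
-/

set_option autoImplicit false

namespace Pool.Agent.Helper83.HF

open Pool.Agent.Helper65.HF Pool.Agent.Helper45 MvPolynomial

theorem pow_le_wd (p M : ℕ) (hM : 3 ≤ M) : (M : ℝ) ^ p ≤ wd p M := by
  have hM3 : (3 : ℝ) ≤ M := by exact_mod_cast hM
  have hlog : 1 ≤ Real.log M := by
    rw [Real.le_log_iff_exp_le (by linarith)]
    linarith [Real.exp_one_lt_d9]
  have h1 : 1 ≤ Real.sqrt (M * Real.log M) := by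
    rw [Real.le_sqrt (by norm_num) (by positivity)]
    nlinarith
  unfold wd
  exact le_mul_of_one_le_right (by positivity) h1

theorem hABV : sABV := by
  intro hHUP hREC hASY hEEB hBAS hBEL hTTA hSUA k _ _ j d cs hj hjd hZ
  obtain ⟨hR1, hR2, -, hR4⟩ := hREC
  rcases eq_or_lt_of_le hjd with hjd' | hjd'
  · subst hjd'
    obtain ⟨C, hC, hA⟩ := hASY j j 0 (by omega) le_rfl
    have hcs : cs = 1 / (j.factorial : ℝ) := by
      have := hZ.2.1
      rw [thr_self (by omega)] at this
      linarith
    refine ⟨C, 3, fun M hM r hr => ?_⟩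
    have hM1 : 1 ≤ M := by omega
    have h1 := hA M 0 hM1 (by simp)
    rw [Nat.cast_zero, zero_div, thr_self (by omega : 1 ≤ j), sub_zero, ← hcs, hR4] at h1
    have h2 := (abs_le.1 h1).2
    have h3 : (((M + j - 1).choose j : ℕ) : ℝ) ≤ r := by
      have h4 := pow_le_wd (j - 1) M hM
      have h5 := mul_le_mul_of_nonneg_left h4 hC.le
      push_cast at h2
      linarith
    have h4 : (M + j - 1).choose j ≤ r := by exact_mod_cast h3
    have h5 := hBAS k j M ((M + j - 1).choose j) (by omega) le_rfl
    have h6 : Gr.gen k (Fin M) j 0 ((M + j - 1).choose j) ≤ Gr.gen k (Fin M) j 0 r := Gr.gen_mono h4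
    unfold H
    rw [if_pos le_rfl, Nat.sub_self]
    omega
  · obtain ⟨η, c1, C2, M1, hη, hc1, hC2, hM1, hE1, hE2, -, hE4, hE5⟩ := hEEB j d cs hj hZ
    have hcs := hZ.1
    obtain ⟨C1, M1', hC1, hT⟩ := hTTA k j d cs η hj hjd' hη hZ hE5 (fun c hc _ => hBEL k j c hj hc)
    obtain ⟨s, hs1, hs2, hs3⟩ := isZ_neg hj hZ (by linarith : cs < cs + η)
    have hfull := Gr.gen_full_of_above (k := k) (E := d - j) hj (by linarith : 0 < s)
      (by rw [Nat.sub_add_cancel hjd]; exact hs3)
    obtain ⟨N3, hN3⟩ := Filter.eventually_atTop.1 hfull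
    have hzero : ∀ M r : ℕ, N3 + 1 ≤ M → (cs + η) * (M : ℝ) ^ j < r → H k j M r d = 0 := by
      intro M r hM hr
      obtain ⟨n, rfl⟩ : ∃ n, M = n + 1 := ⟨M - 1, by omega⟩
      have h1 : s * (n : ℝ) ^ j ≤ r := by
        refine le_trans ?_ hr.le
        apply mul_le_mul hs2.le _ (by positivity) (by linarith)
        apply pow_le_pow_left₀ (Nat.cast_nonneg n)
        push_cast
        linarith
      have h2 := hN3 n (by omega) r h1
      rw [finrank_homog, Fintype.card_fin, Nat.sub_add_cancel hjd] at h2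
      unfold H
      rw [if_pos hjd, h2, Nat.sub_self]
    have hG0 : ∀ M : ℕ, (EE j M 0 d : ℝ) = (((M + d - 1).choose d : ℕ) : ℝ) := by
      intro M
      rw [hR4]
      push_cast
      rfl
    have hsua : ∃ C : ℝ, ∃ M0 : ℕ, ∀ M ≥ M0, ∀ r : ℕ, (r : ℝ) ≤ (cs + η) * (M : ℝ) ^ j →
        (EE j M r d : ℝ) ≤ -(C * wd (d - 1) M) → (H k j M r d : ℝ) < 1 := by
      refine hSUA j d (cs + η) c1 C1 C2 (max (max M1 M1') (N3 + 1))
        (fun M r => (H k j M r d : ℝ)) (fun M r => (EE j M r (d - j) : ℝ))
        (fun M r => (EE j M r (d - 1) : ℝ)) (fun M r => (EE j M r d : ℝ)) hj hjd' (by linarith) hc1 hC1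
        hC2 ?_ ?_ ?_ ?_ ?_ ?_ ?_ ?_
      · intro M r _ _
        have := hR2 j M r d (by omega)
        rw [if_pos hjd] at this
        simp only [this]
        push_cast
        ring
      · intro M r hM _
        have hM1' : M1 ≤ M := le_trans (le_trans (le_max_left _ _) (le_max_left _ _)) hM
        have := hR1 j (M - 1) r (d - 1) (by omega)
        rw [show M - 1 + 1 = M by omega, show d - 1 + 1 = d by omega] at this
        simp only [this]
        push_cast
        ring
      · intro M r hM hr
        have hM1' : M1 ≤ M := le_trans (le_trans (le_max_left _ _) (le_max_left _ _)) hM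
        have h1 := hE1 (d - 1) (by omega) M r hM1' hr
        have h2 := hE1 (d - j) (by omega) M r hM1' hr
        exact ⟨h1.1, h1.2, h2.1, h2.2⟩
      · intro M r hM hr
        exact (abs_le.1 (hE2 M r hM hr)).1
      · intro M
        simp only [hG0]
        positivity
      · intro M r hM
        have h1 := (hHUP k j M r d (by omega)).1
        have h2 : (H k j M r d : ℝ) ≤ (((M + d - 1).choose d : ℕ) : ℝ) := by exact_mod_cast h1
        have h3 := hE2 M 0 hM (by
          rw [Nat.cast_zero]
          have : (0 : ℝ) < cs + η := by linarith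
          positivity)
        rw [hG0] at h3
        exact h2.trans (abs_le.1 h3).2
      · intro M r hM hr
        have := hzero M r (le_trans (le_max_right _ _) hM) hr
        simp only [this, Nat.cast_zero]
      · intro M r hM hr
        exact hT M (le_trans (le_trans (le_max_right _ _) (le_max_left _ _)) hM) r hr
    obtain ⟨C, M0, hfin⟩ := hsua
    refine ⟨(|C| + C2) / c1, max (max M0 (N3 + 1)) (max 3 M1), fun M hM r hr => ?_⟩
    have hM0 : M0 ≤ M := le_trans (le_trans (le_max_left _ _) (le_max_left _ _)) hM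
    have hMN : N3 + 1 ≤ M := le_trans (le_trans (le_max_right _ _) (le_max_left _ _)) hM
    have hM3 : 3 ≤ M := le_trans (le_trans (le_max_left _ _) (le_max_right _ _)) hM
    have hMpos : (0 : ℝ) < M := by
      have : 0 < M := by omega
      exact_mod_cast this
    by_cases hbig : (cs + η) * (M : ℝ) ^ j < r
    · exact hzero M r hMN hbig
    · rw [not_lt] at hbig
      have hwd0 : 0 ≤ wd (j - 1) M := by unfold wd; positivity
      have hC0 : 0 ≤ (|C| + C2) / c1 := by positivity
      have hlow : cs * (M : ℝ) ^ j ≤ r := by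
        have := mul_nonneg hC0 hwd0
        linarith
      have h1 := hE4 M r (by omega) hlow hbig
      have hMj : (0 : ℝ) < (M : ℝ) ^ j := by positivity
      have h2 : (|C| + C2) / c1 * wd (d - 1) M ≤ ((r : ℝ) / (M : ℝ) ^ j - cs) * (M : ℝ) ^ d := by
        have h3 : (M : ℝ) ^ d = (M : ℝ) ^ j * (M : ℝ) ^ (d - j) := by
          rw [← pow_add]
          congr 1
          omega
        have h4 : wd (d - 1) M = wd (j - 1) M * (M : ℝ) ^ (d - j) := by
          unfold wd
          have : (M : ℝ) ^ (d - 1) = (M : ℝ) ^ (j - 1) * (M : ℝ) ^ (d - j) := by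
            rw [← pow_add]
            congr 1
            omega
          rw [this]
          ring
        have h5 : ((r : ℝ) / (M : ℝ) ^ j - cs) * (M : ℝ) ^ d =
            ((r : ℝ) - cs * (M : ℝ) ^ j) * (M : ℝ) ^ (d - j) := by
          rw [h3]
          field_simp
        rw [h5, h4, ← mul_assoc]
        apply mul_le_mul_of_nonneg_right _ (by positivity)
        linarith
      have h3 := pow_le_wd (d - 1) M hM3
      have hwd1 : 0 ≤ wd (d - 1) M := by unfold wd; positivity
      have h4 : (EE j M r d : ℝ) ≤ -(C * wd (d - 1) M) := by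
        have h5 : c1 * ((|C| + C2) / c1 * wd (d - 1) M) ≤
            c1 * (((r : ℝ) / (M : ℝ) ^ j - cs) * (M : ℝ) ^ d) := mul_le_mul_of_nonneg_left h2 hc1.le
        have h6 : c1 * ((|C| + C2) / c1 * wd (d - 1) M) = (|C| + C2) * wd (d - 1) M := by
          field_simp
        have h7 : C * wd (d - 1) M ≤ |C| * wd (d - 1) M :=
          mul_le_mul_of_nonneg_right (le_abs_self C) hwd1
        have h8 : C2 * (M : ℝ) ^ (d - 1) ≤ C2 * wd (d - 1) M :=
          mul_le_mul_of_nonneg_left h3 (by linarith)
        have h9 : c1 * (((r : ℝ) / (M : ℝ) ^ j - cs)) * (M : ℝ) ^ d =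
            c1 * (((r : ℝ) / (M : ℝ) ^ j - cs) * (M : ℝ) ^ d) := by ring
        rw [h9] at h1
        nlinarith [h1, h5, h6, h7, h8]
      have h5 := hfin M hM0 r hbig h4
      have h6 : H k j M r d < 1 := by exact_mod_cast h5
      omega

end Pool.Agent.Helper83.HF
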