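import Pool.Agent.Helper65.HF.StN

/-!
# Project HF, module SUA: the comparison principle above the threshold
-/

set_option autoImplicit false

namespace Pool.Agent.Helper83.HF

open Pool.Agent.Helper65.HF

theorem third_le_exp_neg_one : (1 : ℝ) / 3 ≤ Real.exp (-1) := by
  rw [Real.exp_neg, one_div]
  have := Real.exp_one_lt_d9
  exact inv_anti₀ (Real.exp_pos 1) (by linarith)

theorem largeK (d : ℕ) (B C2 : ℝ) (hB : 0 ≤ B) (hC : 0 < C2) : ∃ K0 : ℕ, ∀ K : ℕ, K0 ≤ K →
    1 ≤ Real.log K ∧ Real.sqrt (Real.log K) * (C2 * (B * Real.log K) ^ d) ≤ K := by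
  have hpos : 0 < C2 * B ^ d + 1 := by positivity
  have h1 := (Real.isLittleO_pow_log_id_atTop (n := d + 1)).bound (inv_pos.2 hpos)
  have h2 := tendsto_natCast_atTop_atTop (R := ℝ) |>.eventually h1
  have h3 : ∀ᶠ K : ℕ in Filter.atTop, 1 ≤ Real.log K :=
    (Real.tendsto_log_atTop.comp tendsto_natCast_atTop_atTop).eventually_ge_atTop 1
  obtain ⟨K0, hK0⟩ := Filter.eventually_atTop.1 (h2.and h3)
  refine ⟨K0, fun K hK => ?_⟩
  obtain ⟨h4, h5⟩ := hK0 K hK
  refine ⟨h5, ?_⟩
  have hlog0 : 0 ≤ Real.log K := by linarith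
  rw [Real.norm_of_nonneg (pow_nonneg hlog0 _), id, Real.norm_of_nonneg (Nat.cast_nonneg K)] at h4
  have h6 : Real.sqrt (Real.log K) ≤ Real.log K := by
    rw [Real.sqrt_le_left hlog0]
    nlinarith
  have h7 : 0 ≤ C2 * (B * Real.log K) ^ d := by positivity
  calc Real.sqrt (Real.log K) * (C2 * (B * Real.log K) ^ d)
      ≤ Real.log K * (C2 * (B * Real.log K) ^ d) := mul_le_mul_of_nonneg_right h6 h7
    _ = C2 * B ^ d * Real.log K ^ (d + 1) := by rw [mul_pow, pow_succ]; ring
    _ ≤ C2 * B ^ d * ((C2 * B ^ d + 1)⁻¹ * K) := mul_le_mul_of_nonneg_left h4 (by positivity)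
    _ = (C2 * B ^ d / (C2 * B ^ d + 1)) * K := by rw [div_eq_mul_inv]; ring
    _ ≤ 1 * K := by
        apply mul_le_mul_of_nonneg_right _ (Nat.cast_nonneg K)
        rw [div_le_one hpos]
        linarith
    _ = K := one_mul _

theorem hSUA : sSUA := by
  intro hSA1 j d cs c1 C1 C2 M1 h a b G hj hjd hcs hc1 hC1 hC2 hGa hGb hab hGlow hG0 hh hh0 hineq
  have hC2' : 0 < C2 := by linarith
  obtain ⟨θ, t0, M1', hθ, ht0, key⟩ := hSA1 j d c1 C1 C2 hj hjd hc1 hC1 hC2'
  set m1 : ℕ := max (M1 + 1) (max M1' 2) with hm1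
  set B : ℝ := (m1 : ℝ) + 1 / t0 ^ 2 with hBdef
  have hB0 : 0 ≤ B := by positivity
  obtain ⟨K0, hK0⟩ := largeK d B C2 hB0 hC2'
  refine ⟨θ * cs + d + 1, max (max K0 1) (⌈3 * C2⌉₊ + 1), fun K hK => ?_⟩
  have hKK0 : K0 ≤ K := le_trans (le_trans (le_max_left _ _) (le_max_left _ _)) hK
  have hK1 : 1 ≤ K := le_trans (le_trans (le_max_right _ _) (le_max_left _ _)) hK
  have hK3 : 3 * C2 < K := by
    have h1 : ⌈3 * C2⌉₊ + 1 ≤ K := le_trans (le_max_right _ _) hK
    have h2 : ((⌈3 * C2⌉₊ : ℕ) : ℝ) + 1 ≤ K := by exact_mod_cast h1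
    linarith [Nat.le_ceil (3 * C2)]
  obtain ⟨hlog, hbig⟩ := hK0 K hKK0
  have hKr : (1 : ℝ) ≤ K := by exact_mod_cast hK1
  have hlog0 : 0 ≤ Real.log K := by linarith
  set L : ℝ := Real.sqrt (Real.log K) with hLdef
  have hL0 : 0 ≤ L := Real.sqrt_nonneg _
  have hLL : L * L = Real.log K := Real.mul_self_sqrt hlog0
  set D : ℝ := (K : ℝ) ^ (d - 1) * Real.sqrt K with hDdef
  have hsK : 1 ≤ Real.sqrt K := by
    rw [Real.le_sqrt (by norm_num) (by linarith)]
    simpa using hKr
  have hKD : (K : ℝ) ≤ D := by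
    have h1 : (K : ℝ) ^ 1 ≤ (K : ℝ) ^ (d - 1) := pow_le_pow_right₀ hKr (by omega)
    rw [pow_one] at h1
    calc (K : ℝ) = K * 1 := (mul_one _).symm
      _ ≤ (K : ℝ) ^ (d - 1) * Real.sqrt K := mul_le_mul h1 hsK (by norm_num) (by positivity)
  have hD0 : 0 < D := by linarith
  set A : ℝ := 3 * C2 * (K : ℝ) ^ d with hAdef
  have hA0 : 0 < A := by positivity
  set p : ℕ → ℝ := fun M => (M : ℝ) ^ (d - j - 1) * Real.sqrt M with hpdef
  have hp0 : ∀ M, 0 ≤ p M := fun M => by simp only [hpdef]; positivity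
  have hpmono : ∀ M N : ℕ, M ≤ N → p M ≤ p N := by
    intro M N hMN
    have h1 : (M : ℝ) ≤ N := by exact_mod_cast hMN
    simp only [hpdef]
    exact mul_le_mul (pow_le_pow_left₀ (Nat.cast_nonneg M) h1 _) (Real.sqrt_le_sqrt h1)
      (Real.sqrt_nonneg _) (by positivity)
  have hhA : ∀ M r : ℕ, 1 ≤ M → M ≤ K → h M r ≤ A / 3 := by
    intro M r hM hMK
    have h1 : (M : ℝ) ^ d ≤ (K : ℝ) ^ d :=
      pow_le_pow_left₀ (Nat.cast_nonneg M) (by exact_mod_cast hMK) _
    calc h M r ≤ C2 * (M : ℝ) ^ d := hh M r hM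
      _ ≤ C2 * (K : ℝ) ^ d := mul_le_mul_of_nonneg_left h1 hC2'.le
      _ = A / 3 := by rw [hAdef]; ring
  have claim : ∀ r M : ℕ, 1 ≤ M → M ≤ K → (r : ℝ) ≤ cs * (M : ℝ) ^ j →
      h M r ≤ A * Real.exp (L / D * (G M r + θ * L * r * p M)) := by
    intro r
    induction r with
    | zero =>
      intro M hM hMK _
      have h1 : 0 ≤ L / D * (G M 0 + θ * L * ((0 : ℕ) : ℝ) * p M) := by
        rw [Nat.cast_zero, mul_zero, zero_mul, add_zero]
        exact mul_nonneg (div_nonneg hL0 hD0.le) (hG0 M)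
      have h2 : 1 ≤ Real.exp (L / D * (G M 0 + θ * L * ((0 : ℕ) : ℝ) * p M)) := Real.one_le_exp h1
      calc h M 0 ≤ A / 3 := hhA M 0 hM hMK
        _ ≤ A * 1 := by linarith
        _ ≤ _ := mul_le_mul_of_nonneg_left h2 hA0.le
    | succ r ih =>
      intro M hM hMK hr
      have hMr : (1 : ℝ) ≤ M := by exact_mod_cast hM
      have hr' : (r : ℝ) ≤ cs * (M : ℝ) ^ j := by
        push_cast at hr
        linarith
      by_cases hcase : (M : ℝ) < m1 + L * L / t0 ^ 2
      · -- small `M`
        have h1 : (M : ℝ) ≤ B * Real.log K := by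
          rw [hBdef, add_mul]
          have h2 : (m1 : ℝ) ≤ m1 * Real.log K := le_mul_of_one_le_right (Nat.cast_nonneg _) hlog
          have h3 : L * L / t0 ^ 2 = 1 / t0 ^ 2 * Real.log K := by rw [hLL]; ring
          linarith
        have h2 : (M : ℝ) ^ d ≤ (B * Real.log K) ^ d := pow_le_pow_left₀ (Nat.cast_nonneg M) h1 _
        have h3 : -(C2 * (B * Real.log K) ^ d) ≤ G M (r + 1) + θ * L * ((r + 1 : ℕ) : ℝ) * p M := by
          have h4 := hGlow M (r + 1) hM hr
          have h5 : 0 ≤ θ * L * ((r + 1 : ℕ) : ℝ) * p M := by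
            have := hp0 M
            positivity
          have h6 : C2 * (M : ℝ) ^ d ≤ C2 * (B * Real.log K) ^ d := mul_le_mul_of_nonneg_left h2 hC2'.le
          linarith
        have h4 : -1 ≤ L / D * (G M (r + 1) + θ * L * ((r + 1 : ℕ) : ℝ) * p M) := by
          have h5 : L / D * (-(C2 * (B * Real.log K) ^ d)) ≤
              L / D * (G M (r + 1) + θ * L * ((r + 1 : ℕ) : ℝ) * p M) :=
            mul_le_mul_of_nonneg_left h3 (div_nonneg hL0 hD0.le)
          have h6 : L / D * (C2 * (B * Real.log K) ^ d) ≤ 1 := by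
            rw [div_mul_eq_mul_div, div_le_one hD0]
            exact hbig.trans hKD
          linarith
        have h5 : (1 : ℝ) / 3 ≤ Real.exp (L / D * (G M (r + 1) + θ * L * ((r + 1 : ℕ) : ℝ) * p M)) :=
          third_le_exp_neg_one.trans (Real.exp_le_exp.2 h4)
        calc h M (r + 1) ≤ A / 3 := hhA M (r + 1) hM hMK
          _ = A * (1 / 3) := by ring
          _ ≤ _ := mul_le_mul_of_nonneg_left h5 hA0.le
      · -- large `M`
        rw [not_lt] at hcase
        have ht2 : 0 < t0 ^ 2 := by positivity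
        have h0 : 0 ≤ L * L / t0 ^ 2 := by positivity
        have hMm1 : m1 ≤ M := by
          have : (m1 : ℝ) ≤ M := by linarith
          exact_mod_cast this
        have hM1 : M1 + 1 ≤ M := le_trans (le_max_left _ _) hMm1
        have hM1' : M1' ≤ M := le_trans (le_trans (le_max_left _ _) (le_max_right _ _)) hMm1
        have hM2 : 2 ≤ M := le_trans (le_trans (le_max_right _ _) (le_max_right _ _)) hMm1
        have hLt : L ≤ t0 * Real.sqrt M := by
          have h1 : L * L / t0 ^ 2 ≤ M := by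
            have : (0 : ℝ) ≤ m1 := Nat.cast_nonneg _
            linarith
          rw [div_le_iff₀ ht2] at h1
          apply le_of_sq_le_sq _ (by positivity)
          rw [mul_pow, Real.sq_sqrt (Nat.cast_nonneg M)]
          nlinarith
        have ih1 := ih M hM hMK hr'
        have ih0 : h (M - 1) r ≤ A * Real.exp (L / D * (G (M - 1) r + θ * L * r * p (M - 1))) := by
          by_cases hc : (r : ℝ) ≤ cs * ((M - 1 : ℕ) : ℝ) ^ j
          · exact ih (M - 1) (by omega) (by omega) hc
          · rw [hh0 (M - 1) r (by omega) (not_le.1 hc)]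
            positivity
        have hbnd := hab M r (by omega) hr'
        have hsq0 : 0 ≤ Real.sqrt M := Real.sqrt_nonneg _
        have hsqM : Real.sqrt M * Real.sqrt M = M := Real.mul_self_sqrt (Nat.cast_nonneg M)
        have hsq1 : 0 < Real.sqrt M := Real.sqrt_pos.2 (by linarith)
        have hlogM : Real.sqrt (Real.log M) ≤ L :=
          Real.sqrt_le_sqrt (Real.log_le_log (by linarith) (by exact_mod_cast hMK))
        have hsM : Real.sqrt (M * Real.log M) = Real.sqrt M * Real.sqrt (Real.log M) :=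
          Real.sqrt_mul (Nat.cast_nonneg M) _
        have hres := key M K L (a M r) (b M r) (b M r + θ * L * r * (p M - p (M - 1)))
          (wd (d - j - 1) M) (Real.sqrt (M * Real.log M) / M) A (G M r + θ * L * r * p M)
          (h M (r + 1)) (h (M - 1) r) (h M r) hM1' hMK hL0 hLt hbnd.1 hbnd.2.1 hbnd.2.2.1 hbnd.2.2.2
          ?_ ?_ ?_ ?_ ?_ hA0 ?_ ih1 ?_
        · refine hres.trans (le_of_eq ?_)
          have h1 := hGa M r (by omega) hr'
          congr 2
          have h2 : G M (r + 1) = G M r - a M r := by linarith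
          rw [h2]
          push_cast
          simp only [hpdef]
          ring
        · have h1 := hpmono (M - 1) M (by omega)
          have h2 : 0 ≤ θ * L * r * (p M - p (M - 1)) := by
            have : 0 ≤ p M - p (M - 1) := by linarith
            positivity
          linarith
        · unfold wd
          positivity
        · unfold wd
          rw [hsM]
          exact mul_le_mul_of_nonneg_left (mul_le_mul_of_nonneg_left hlogM hsq0) (by positivity)
        · positivity
        · rw [hsM, div_le_div_iff₀ (by linarith) hsq1]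
          calc Real.sqrt M * Real.sqrt (Real.log M) * Real.sqrt M
              = Real.sqrt (Real.log M) * (Real.sqrt M * Real.sqrt M) := by ring
            _ = Real.sqrt (Real.log M) * M := by rw [hsqM]
            _ ≤ L * M := mul_le_mul_of_nonneg_right hlogM (Nat.cast_nonneg M)
        · exact hineq M r (by omega) hr'
        · refine ih0.trans (le_of_eq ?_)
          have h1 := hGb M r (by omega) hr'
          congr 3
          have h2 : G (M - 1) r = G M r - b M r := by linarith
          rw [h2]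
          ring
  intro r hr hG
  have h1 := claim r K hK1 le_rfl hr
  have hwd : wd (d - 1) K = D * L := by
    unfold wd
    rw [Real.sqrt_mul (Nat.cast_nonneg K), hDdef]
    ring
  have h2 : θ * L * r * p K ≤ θ * cs * (D * L) := by
    have h3 : (r : ℝ) * p K ≤ cs * D := by
      calc (r : ℝ) * p K ≤ cs * (K : ℝ) ^ j * p K := mul_le_mul_of_nonneg_right hr (hp0 K)
        _ = cs * ((K : ℝ) ^ j * (K : ℝ) ^ (d - j - 1) * Real.sqrt K) := by
            simp only [hpdef]
            ring
        _ = cs * D := by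
            rw [← pow_add, hDdef]
            congr 3
            omega
    have h4 := mul_le_mul_of_nonneg_left h3 (mul_nonneg hθ.le hL0)
    calc θ * L * r * p K = θ * L * (r * p K) := by ring
      _ ≤ θ * L * (cs * D) := h4
      _ = _ := by ring
  rw [hwd] at hG
  have h3 : G K r + θ * L * r * p K ≤ -((d + 1) * (D * L)) := by linarith
  have h4 : L / D * (G K r + θ * L * r * p K) ≤ -((d + 1) * Real.log K) := by
    calc L / D * (G K r + θ * L * r * p K) ≤ L / D * (-((d + 1) * (D * L))) :=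
          mul_le_mul_of_nonneg_left h3 (div_nonneg hL0 hD0.le)
      _ = -((d + 1) * (L * L)) := by
          field_simp
      _ = _ := by rw [hLL]
  have h5 : Real.exp (-((d + 1) * Real.log K)) = ((K : ℝ) ^ (d + 1))⁻¹ := by
    rw [Real.exp_neg]
    congr 1
    have h6 : ((d : ℝ) + 1) * Real.log K = Real.log ((K : ℝ) ^ (d + 1)) := by
      rw [Real.log_pow]
      push_cast
      ring
    rw [h6, Real.exp_log (by positivity)]
  calc h K r ≤ A * Real.exp (L / D * (G K r + θ * L * r * p K)) := h1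
    _ ≤ A * Real.exp (-((d + 1) * Real.log K)) :=
        mul_le_mul_of_nonneg_left (Real.exp_le_exp.2 h4) hA0.le
    _ = 3 * C2 / K := by
        rw [h5, hAdef, pow_succ]
        field_simp
    _ < 1 := by
        rw [div_lt_one (by linarith)]
        exact hK3

end Pool.Agent.Helper83.HF
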